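import Mathlib
import Pool.Agent.Helper605.FX.Val
import Pool.Agent.Helper868.FTX.Main

set_option autoImplicit false

namespace Pool.Agent.Results.MP_ad4d1c_co.ExactValue

/-- For every `n ≥ 1` the largest `s` for which there are distinct subsets
`B 0 = ∅, B 1, ..., B (s - 1)` of an `n`-set such that no set is contained in its predecessor and no
set is contained in the union of two consecutive sets that come before it is
`2 ^ (n - 1) + ⌊(n + 1) / 2⌋`. -/
theorem result : ∀ n : ℕ, 1 ≤ n →
    IsGreatest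
      {s : ℕ | ∃ B : ℕ → Finset (Fin n),
        Set.InjOn B (Set.Iio s) ∧
        B 0 = ∅ ∧
        (∀ i : ℕ, i + 1 < s → ¬ B (i + 1) ⊆ B i) ∧
        (∀ i k : ℕ, i + 2 ≤ k → k < s → ¬ B k ⊆ B i ∪ B (i + 1))}
      (2 ^ (n - 1) + (n + 1) / 2) := fun n hn =>
  Pool.Agent.Helper605.FX.val_of_ok n hn (Pool.Agent.Helper868.FTX.lists n)

end Pool.Agent.Results.MP_ad4d1c_co.ExactValue
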